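import Pool.Agent.H5.DPG.Stmts

/-!
# Row BDM of board `dpg` (helper44)
The region of the second case of Zielonka's step.
-/

set_option autoImplicit false

namespace Pool.DPG

open Filter TMLib Pool.PG

/-- **BDM**. -/
theorem bdm_thm (h1 : DMAStmt) (h2 : ATLStmt) (h3 : FSBStmt) (h4 : DSBStmt) : BDMStmt := by
  intro g X L hX hL
  obtain ⟨f1, f2, f3, _⟩ := h3
  obtain ⟨_, σ, hσ⟩ := hL
  have hlen : (bad g X L).length = g.length := (f1 g _).1
  have hfb : ∀ v, v ∈ fs g (bad g X L) ↔
      v ∈ fs g (dif g X (nA g X)) ∧ L.getD v false = !pl g X := by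
    intro v
    unfold bad
    rw [(f1 g _).2]
    unfold fs
    rw [Finset.mem_filter, Finset.mem_filter, Bool.and_eq_true]
    constructor
    · rintro ⟨a, b, c⟩
      refine ⟨⟨a, b⟩, ?_⟩
      revert c
      cases L.getD v false <;> cases pl g X <;> simp
    · rintro ⟨⟨a, b⟩, c⟩
      refine ⟨a, b, ?_⟩
      revert c
      cases L.getD v false <;> cases pl g X <;> simp
  have hsub : fs g (dif g X (nA g X)) ⊆ fs g X := by
    rw [f2]
    exact Finset.sdiff_subset
  have hatr := (h2 g (!pl g X) X (bad g X L) hX.1).2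
  have hU : fs g X ∩ fs g (bad g X L) =
      (fs g (dif g X (nA g X))).filter fun v => L.getD v false = !pl g X := by
    ext v
    rw [Finset.mem_inter, Finset.mem_filter, hfb]
    constructor
    · rintro ⟨_, h⟩
      exact h
    · rintro h
      exact ⟨hsub h.1, h⟩
  refine ⟨?_, fun hany => ?_⟩
  · rw [hU] at hatr
    refine h1 ℕ (own g) (pri g) (fun v w => w ∈ suc g v) (fs g X) (fs g (dif g X (nA g X))) _
      (!pl g X) (fun v => L.getD v false) σ hX.2 hsub ?_ hσ hatr
    intro v hv hown w hw hvw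
    refine (h4 g (pl g X) X (tp g X) hX).2 v hv ?_ w hw hvw
    revert hown
    cases own g v <;> cases pl g X <;> simp
  · obtain ⟨v, hv⟩ := ((f3 g (bad g X L) hlen).2).1 hany
    exact ⟨v, hatr.1 (Finset.mem_inter.2 ⟨hsub ((hfb v).1 hv).1, hv⟩)⟩

end Pool.DPG
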